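import Pool.Agent.Q280.ML.ETC
import Pool.Agent.Q280.ML.ETF

/-!
# The canonical pair of a lattice for the elliptico-toric conjecture

`L` is a pair of periods `ω₁, ω₂` (independent over `ℝ`), `L.lattice = ℤ ω₁ + ℤ ω₂ = Ω`, and `℘[L]`, `L.g₂`, `L.g₃` are
Mathlib's Weierstrass function and invariants. The definitions of `ζ`, `k L` (the field `ℚ ⊗ End(ℂ / Ω)`), `T₀ = 2πi ℚ`,
`P₀ L = Ω ⊗ ℚ`, `trd` (transcendence degree of the field generated by a set), `gen L t p` (the numbers of the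
conjecture) and `dimMod` (dimension of a span modulo a subspace) are in `Pool.Agent.Y776.EtDefs`.

The theorem: there is a smallest pair `(T, P)` consisting of a `ℚ`-space `T ⊇ 2πi ℚ` and a `k`-space `P ⊇ Ω ⊗ ℚ` such
that the conjecture holds exactly over `(T, P)`: if `t₁, …, t_s` are `ℚ`-independent modulo `T` and `p₁, …, p_n ∉ Ω` are
`k`-independent modulo `P`, then `s + 2 n` of the numbers `t_l`, `exp(t_l)`, `p_i`, `℘(p_i)`, `ζ(p_i)` are algebraically
independent over the field generated by the numbers `g₂, g₃, t, exp(t), p, ℘(p), ζ(p)` with `t ∈ T`, `p ∈ P`. Both spaces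
are countable, and they decide the conjecture for `L`.

## The proof (in `Pool.Agent.Q280.ML`)

* `dim T + 2 dim P - trdeg (T, P)` is a supermodular function on the modular lattice of the pairs. The pairs all of whose
  proper subpairs have a smaller value form a directed family (`ML.CoreB`), and `(T, P)` is its union.
* The set `K` of a countable field closed under everything in sight (`Pool.Agent.Y685`, earlier work of this pool, with
  Ax's theorem for a fixed elliptic curve and exponentials) gives an exact pair for all lattices with periods in `K`.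
-/

set_option autoImplicit false

open Module
open scoped PeriodPair

namespace Pool.Agent.Results.MP_8da9ea_nt.CanonicalPair

open Pool.Agent.Y776.Et (ζ k trd gen dimMod T₀ P₀)

/-- The `j`-invariant of a lattice. -/
noncomputable def j (L : PeriodPair) : ℂ := 1728 * L.g₂ ^ 3 / (L.g₂ ^ 3 - 27 * L.g₃ ^ 2)

/-- the numbers `g₂, g₃, t, exp(t), p, ζ(p), ℘(p)` with `t ∈ T` and `p ∈ P` (`ζ` and `℘` are only taken outside the
lattice) -/
def numbers (L : PeriodPair) (T : Submodule ℚ ℂ) (P : Submodule (k L) ℂ) : Set ℂ :=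
  {L.g₂, L.g₃} ∪ (((T : Set ℂ) ∪ Complex.exp '' (T : Set ℂ)) ∪
    ((P : Set ℂ) ∪ (ζ L '' ((P : Set ℂ) \ (L.lattice : Set ℂ)) ∪ ℘[L] '' ((P : Set ℂ) \ (L.lattice : Set ℂ)))))

/-- the numbers `t_l`, `exp(t_l)`, `p_i`, `℘(p_i)`, `ζ(p_i)` -/
def points (L : PeriodPair) {s n : ℕ} (t : Fin s → ℂ) (p : Fin n → ℂ) : Set ℂ :=
  {x | (∃ l, x = t l ∨ x = Complex.exp (t l)) ∨ ∃ i, x = p i ∨ x = ℘[L] (p i) ∨ x = ζ L (p i)}

/-- the numbers `g₂, g₃, ω₁, ω₂, η₁, η₂` -/
noncomputable def periods (L : PeriodPair) : Set ℂ :=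
  {L.g₂, L.g₃} ∪ {L.ω₁, L.ω₂, 2 * ζ L (L.ω₁ / 2), 2 * ζ L (L.ω₂ / 2)}

/-- The elliptico-toric conjecture for the lattice `L` with the error `C`. For `C = 0` this is question Q1 for `L`. -/
def Conj (L : PeriodPair) (C : ℕ) : Prop :=
  ∀ (s n : ℕ) (t : Fin s → ℂ) (p : Fin n → ℂ), (∀ i, p i ∉ L.lattice) →
    ((dimMod T₀ t + 4 / finrank ℚ (k L) + 2 * dimMod (P₀ L) p : ℕ) : Cardinal) ≤ trd ℚ (gen L t p) + C

/-- The conjecture holds exactly over the pair `(T, P)`: if `t₁, …, t_s` are `ℚ`-independent modulo `T` and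
`p₁, …, p_n ∉ Ω` are `k`-independent modulo `P`, then some `s + 2 n` of the numbers `t_l`, `exp(t_l)`, `p_i`, `℘(p_i)`,
`ζ(p_i)` are algebraically independent over the field generated by the numbers of `(T, P)`. -/
def ExactOver (L : PeriodPair) (T : Submodule ℚ ℂ) (P : Submodule (k L) ℂ) : Prop :=
  ∀ (s n : ℕ) (t : Fin s → ℂ) (p : Fin n → ℂ), (∀ i, p i ∉ L.lattice) →
    LinearIndependent ℚ (fun l => T.mkQ (t l)) → LinearIndependent (k L) (fun i => P.mkQ (p i)) →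
    ∃ w : Fin (s + 2 * n) → ℂ, (∀ l, w l ∈ points L t p) ∧
      AlgebraicIndependent (IntermediateField.adjoin ℚ (numbers L T P)) w

/-- finite dimensional spaces `T ⊇ 2πi ℚ` and `P ⊇ Ω ⊗ ℚ` -/
def Admissible (L : PeriodPair) (T : Submodule ℚ ℂ) (P : Submodule (k L) ℂ) : Prop :=
  (T₀ ≤ T ∧ P₀ L ≤ P) ∧ FiniteDimensional ℚ T ∧ FiniteDimensional (k L) P

/-- the defect `dim T + 2 dim P - 1 - trdeg (T, P)` of an admissible pair -/
noncomputable def defect (L : PeriodPair) (T : Submodule ℚ ℂ) (P : Submodule (k L) ℂ) : ℤ :=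
  (finrank ℚ T : ℤ) + 2 * (finrank (k L) P : ℤ) - 1 - ((trd ℚ (numbers L T P)).toNat : ℤ)

/-- an admissible pair all of whose proper admissible subpairs have a smaller defect -/
def Tight (L : PeriodPair) (T : Submodule ℚ ℂ) (P : Submodule (k L) ℂ) : Prop :=
  Admissible L T P ∧ ∀ T' P', T₀ ≤ T' → P₀ L ≤ P' → (T' ≤ T ∧ P' ≤ P) → ¬ (T' = T ∧ P' = P) →
    defect L T' P' < defect L T P

section

open Pool.Agent.Q280.ML

variable {L : PeriodPair}

theorem points_eq {s n : ℕ} (t : Fin s → ℂ) (p : Fin n → ℂ) : points L t p = ex t ∪ pts L p := by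
  ext x
  simp only [points, ex, pts, Set.mem_union, Set.mem_iUnion, Set.mem_insert_iff, Set.mem_singleton_iff,
    Set.mem_ofPred_eq]

theorem numbers_eq (T : Submodule ℚ ℂ) (P : Submodule (k L) ℂ) : numbers L T P = NN L (T, P) := rfl

theorem exact_eq (T : Submodule ℚ ℂ) (P : Submodule (k L) ℂ) : ExactOver L T P ↔ Exact₂ L (T, P) := by
  unfold ExactOver Exact₂
  simp only [points_eq]
  exact Iff.rfl

theorem defect_eq {T : Submodule ℚ ℂ} {P : Submodule (k L) ℂ} (hT : FiniteDimensional ℚ T)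
    (hP : FiniteDimensional (k L) P) : defect L T P = Bs.LSys.dfc (A := ETSys L) (T, P) - 1 := by
  have h1 : (trd ℚ (numbers L T P)).toNat = (Q241.SX.M.eRk (NN L (T, P))).toNat :=
    Pool.Agent.Q280.SD.trdeg_adjoin (NN L (T, P)) (NN_rk hT hP)
  unfold defect Bs.LSys.dfc Bs.LSys.rk
  rw [h1]
  change _ = ((finrank ℚ T + 2 * finrank (k L) P : ℕ) : ℤ) - ((Q241.SX.M.eRk (NN L (T, P))).toNat : ℤ) - 1
  push_cast
  ring

theorem tight_iff {T : Submodule ℚ ℂ} {P : Submodule (k L) ℂ} : Tight L T P ↔ fin₂ L (T, P) ∧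
    ∀ W, base L ≤ W → W < (T, P) → Bs.LSys.dfc (A := ETSys L) W < Bs.LSys.dfc (A := ETSys L) (T, P) := by
  unfold Tight
  refine and_congr_right fun hV => ?_
  constructor
  · rintro h ⟨T', P'⟩ h1 h2
    have h3 := h T' P' h1.1 h1.2 ⟨h2.le.1, h2.le.2⟩ (fun h => h2.ne (Prod.ext h.1 h.2))
    rw [defect_eq hV.2.1 hV.2.2, defect_eq (fd_le hV.2.1 h2.le.1) (fd_le hV.2.2 h2.le.2)] at h3
    change Bs.LSys.dfc (A := ETSys L) (T', P') - 1 < _ at h3
    omega
  · rintro h T' P' h1 h2 h3 h4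
    have h5 := h (T', P') ⟨h1, h2⟩ (lt_of_le_of_ne ⟨h3.1, h3.2⟩ (fun h => h4 ⟨congrArg Prod.fst h, congrArg Prod.snd h⟩))
    rw [defect_eq hV.2.1 hV.2.2, defect_eq (fd_le hV.2.1 h3.1) (fd_le hV.2.2 h3.2)]
    omega

theorem trd_eq {S : Set ℂ} (hS : S.Finite) : ∃ r : ℕ, Q241.SX.M.eRk S = (r : ℕ∞) ∧ trd ℚ S = (r : Cardinal) :=
  Pool.Agent.Y685.trd_eq ℚ hS

theorem fin_gen {s n : ℕ} (t : Fin s → ℂ) (p : Fin n → ℂ) : (gen L t p).Finite :=
  ((Set.toFinite _).union (Set.toFinite _)).union (((Set.finite_range t).union ((Set.finite_range t).image _)).union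
    ((Set.finite_range p).union (((Set.finite_range p).image _).union ((Set.finite_range p).image _))))

theorem conj_iff (C : ℕ) : Conj L C ↔ (FiniteDimensional ℚ (CP L).1 ∧ FiniteDimensional (k L) (CP L).2) ∧
      Bs.LSys.dfc (A := ETSys L) (CP L) ≤ C + 1 := by
  rw [← bound_CP, ← bound₂_iff]
  unfold Conj
  refine forall_congr' fun s => forall_congr' fun n => forall_congr' fun t => forall_congr' fun p =>
    imp_congr_right fun _ => ?_
  obtain ⟨r, h1, h2⟩ := trd_eq (fin_gen (L := L) t p)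
  rw [h1, h2]
  norm_cast

theorem gen_zero : gen L (Fin.elim0 : Fin 0 → ℂ) (Fin.elim0 : Fin 0 → ℂ) = periods L := by
  unfold gen periods
  simp only [Set.range_eq_empty, Set.image_empty, Set.union_empty]

theorem QQ_zero : QQ L (Fin.elim0 : Fin 0 → ℂ) (Fin.elim0 : Fin 0 → ℂ) = base L := by
  unfold QQ
  simp only [Set.range_eq_empty, Submodule.span_empty]
  exact sup_bot_eq (base L)

theorem rk_periods : Q241.SX.M.eRk (periods L) = Q241.SX.M.eRk (NN L (base L)) := by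
  rw [← gen_zero, gen_cl (fun i => i.elim0), QQ_zero]

theorem ww_base : ww L (base L) = 4 / finrank ℚ (Pool.Agent.TH813.Ell.kL L) + 1 := by
  change finrank ℚ Pool.Agent.TH813.Ell.P₁ +
    2 * finrank (Pool.Agent.TH813.Ell.kL L) (Pool.Agent.TH813.Ell.P₂ L) = _
  rw [Pool.Agent.TH813.Ell.finrank_P₁, Pool.Agent.TH813.Ell.four_div]
  ring

theorem base_iff : CP L = base L ↔ ∀ (s n : ℕ) (t : Fin s → ℂ) (p : Fin n → ℂ), (∀ i, p i ∉ L.lattice) →
    ((dimMod T₀ t + 2 * dimMod (P₀ L) p : ℕ) : Cardinal) + trd ℚ (periods L) ≤ trd ℚ (gen L t p) := by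
  obtain ⟨m, hm1, hm2⟩ := trd_eq (S := periods L) ((Set.toFinite _).union (Set.toFinite _))
  have hb : Bs.LSys.rk (A := ETSys L) (base L) = m := by
    unfold Bs.LSys.rk
    change (Q241.SX.M.eRk (NN L (base L))).toNat = m
    rw [← rk_periods, hm1, ENat.toNat_natCast]
  have key : ∀ (s n : ℕ) (t : Fin s → ℂ) (p : Fin n → ℂ), (∀ i, p i ∉ L.lattice) →
      (Bs.LSys.dfc (A := ETSys L) (QQ L t p) ≤ Bs.LSys.dfc (A := ETSys L) (base L) ↔
        ((dimMod T₀ t + 2 * dimMod (P₀ L) p : ℕ) : Cardinal) + trd ℚ (periods L) ≤ trd ℚ (gen L t p)) := by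
    intro s n t p hp
    obtain ⟨r, h1, h2⟩ := trd_eq (fin_gen (L := L) t p)
    have h3 : Bs.LSys.rk (A := ETSys L) (QQ L t p) = r := by
      unfold Bs.LSys.rk
      change (Q241.SX.M.eRk (NN L (QQ L t p))).toNat = r
      rw [← gen_cl hp, h1, ENat.toNat_natCast]
    have h4 : Bs.LSys.w (ETSys L) (QQ L t p) = _ := ww_QQ t p
    have h5 : Bs.LSys.w (ETSys L) (base L) = _ := ww_base
    rw [h2, hm2]
    unfold Bs.LSys.dfc
    rw [h3, h4, h5, hb]
    constructor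
    · intro h
      have h6 : dimMod T₀ t + 2 * dimMod (P₀ L) p + m ≤ r := by omega
      exact_mod_cast h6
    · intro h
      have h6 : dimMod T₀ t + 2 * dimMod (P₀ L) p + m ≤ r := by exact_mod_cast h
      omega
  rw [CP_base]
  constructor
  · intro h s n t p hp
    exact (key s n t p hp).mp (h _ (fin_QQ t p))
  · intro h V hV
    obtain ⟨s, n, t, p, hp, rfl⟩ := exists_QQ hV
    exact (key s n t p hp).mpr (h s n t p hp)

theorem alg_iff (h2 : IsAlgebraic ℚ L.g₂) (h3 : IsAlgebraic ℚ L.g₃) :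
    Conj L 0 ↔ trd ℚ (periods L) = ((4 / finrank ℚ (k L) : ℕ) : Cardinal) ∧ CP L = base L := by
  obtain ⟨m, hm1, hm2⟩ := trd_eq (S := periods L) ((Set.toFinite _).union (Set.toFinite _))
  have hb : Bs.LSys.rk (A := ETSys L) (base L) = m := by
    unfold Bs.LSys.rk
    change (Q241.SX.M.eRk (NN L (base L))).toNat = m
    rw [← rk_periods, hm1, ENat.toNat_natCast]
  obtain ⟨N, hN⟩ : ∃ N : ℕ, 4 / finrank ℚ (k L) = N := ⟨_, rfl⟩
  have h5 : Bs.LSys.w (ETSys L) (base L) = N + 1 := by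
    rw [← hN]
    exact ww_base
  have h4 : Bs.LSys.dfc (A := ETSys L) (base L) = N + 1 - m := by
    unfold Bs.LSys.dfc
    rw [h5, hb]
    push_cast
    ring
  have h1 := rk_base h2 h3
  rw [h4] at h1
  have hle : ∀ V : Pr L, fin₂ L V → (FiniteDimensional ℚ (CP L).1 ∧ FiniteDimensional (k L) (CP L).2) →
      Bs.LSys.dfc (A := ETSys L) V ≤ Bs.LSys.dfc (A := ETSys L) (CP L) := fun V hV h =>
    Bs.le_core (Bs.LSys.sm (A := ETSys L)) (V := V) ⟨base_le_CP, h⟩ hV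
  rw [conj_iff, hm2, hN]
  constructor
  · rintro ⟨h6, h7⟩
    have h8 := hle _ fin₂_base h6
    rw [h4] at h8
    simp only [Nat.cast_zero, zero_add] at h7
    refine ⟨?_, CP_base.mpr fun V hV => (hle V hV h6).trans ?_⟩
    · have h9 : m = N := by omega
      rw [h9]
    · rw [h4]
      omega
  · rintro ⟨h6, h7⟩
    have h8 : m = N := by exact_mod_cast h6
    rw [h7]
    refine ⟨⟨Pool.Agent.TH813.Ell.fd_P₁, fd_P₂⟩, ?_⟩
    rw [h4]
    omega

end

/-- **Main result.** There is a countable set `F` of complex numbers such that for every lattice `L` there are a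
`ℚ`-space `T` and a `k`-space `P` of complex numbers with the following properties.

(1) `2πi ℚ ⊆ T`, `Ω ⊗ ℚ ⊆ P`, the conjecture holds exactly over `(T, P)`, and `(T, P)` is contained in every such pair.
(2) `T` and `P` are the unions of the pairs all of whose proper subpairs have a smaller defect.
(3) The defect of an admissible pair `(T', P')` is at most the defect of `(T' ∩ T, P' ∩ P)`.
(4) For every `C` the conjecture holds for `L` with the error `C` if and only if `T`, `P` are finite dimensional and the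
defect of `(T, P)` is at most `C`.
(5) `T = 2πi ℚ` and `P = Ω ⊗ ℚ` if and only if the transcendence degree of the numbers of the conjecture is always at
least `dim ⟨t⟩ + 2 dim ⟨p⟩ + trdeg ℚ(g₂, g₃, ω₁, ω₂, η₁, η₂)`.
(6) For algebraic `g₂, g₃` the conjecture holds for `L` if and only if `trdeg ℚ(ω₁, ω₂, η₁, η₂) = 4 / [k : ℚ]` and
`T = 2πi ℚ`, `P = Ω ⊗ ℚ`.
(7) `T` and `P` are countable.
(8) If the lattice is stable under complex conjugation then so are `T` and `P`.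
(9) If `j(L)` is in `F` then `T ⊆ F`, and for some `c ≠ 0` the numbers `c ω₁`, `c ω₂` and the set `c P` lie in `F`. -/
theorem result : ∃ F : Set ℂ, F.Countable ∧ ∀ L : PeriodPair,
    ∃ (T : Submodule ℚ ℂ) (P : Submodule (k L) ℂ),
    ((T₀ ≤ T ∧ P₀ L ≤ P) ∧ ExactOver L T P ∧
      ∀ T' P', T₀ ≤ T' → P₀ L ≤ P' → ExactOver L T' P' → T ≤ T' ∧ P ≤ P') ∧
    (∀ a b, (a ∈ T ∧ b ∈ P) ↔ ∃ T' P', Tight L T' P' ∧ a ∈ T' ∧ b ∈ P') ∧
    (∀ T' P', Admissible L T' P' → defect L T' P' ≤ defect L (T' ⊓ T) (P' ⊓ P)) ∧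
    (∀ C : ℕ, Conj L C ↔ (FiniteDimensional ℚ T ∧ FiniteDimensional (k L) P) ∧ defect L T P ≤ C) ∧
    ((T = T₀ ∧ P = P₀ L) ↔ ∀ (s n : ℕ) (t : Fin s → ℂ) (p : Fin n → ℂ), (∀ i, p i ∉ L.lattice) →
      ((dimMod T₀ t + 2 * dimMod (P₀ L) p : ℕ) : Cardinal) + trd ℚ (periods L) ≤ trd ℚ (gen L t p)) ∧
    (IsAlgebraic ℚ L.g₂ → IsAlgebraic ℚ L.g₃ →
      (Conj L 0 ↔ trd ℚ (periods L) = ((4 / finrank ℚ (k L) : ℕ) : Cardinal) ∧ (T = T₀ ∧ P = P₀ L))) ∧
    ((T : Set ℂ).Countable ∧ (P : Set ℂ).Countable) ∧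
    ((∀ w ∈ L.lattice, (starRingEnd ℂ) w ∈ L.lattice) →
      (∀ t ∈ T, (starRingEnd ℂ) t ∈ T) ∧ ∀ z ∈ P, (starRingEnd ℂ) z ∈ P) ∧
    (j L ∈ F → (∀ t ∈ T, t ∈ F) ∧ ∃ c : ℂ, c ≠ 0 ∧ c * L.ω₁ ∈ F ∧ c * L.ω₂ ∈ F ∧ ∀ z ∈ P, c * z ∈ F) := by
  open Pool.Agent.Q280.ML in
  obtain ⟨F, hF, h⟩ := uniform_CP
  refine ⟨F, hF, fun L => ⟨(CP L).1, (CP L).2, ⟨⟨base_le_CP.1, base_le_CP.2⟩, (exact_eq _ _).mpr exact_CP,
    fun T' P' h1 h2 h3 => ?_⟩, fun a b => ?_, fun T' P' hV => ?_, fun C => ?_, ?_, fun h2 h3 => ?_, countable_CP L,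
    fun hL => conj_CP hL, fun hj => h L hj⟩⟩
  · have h4 : CP L ≤ (T', P') := CP_le ⟨h1, h2⟩ ((exact_eq T' P').mp h3)
    exact ⟨h4.1, h4.2⟩
  · rw [mem_CP]
    constructor
    · rintro ⟨V, h1, h2, h3⟩
      exact ⟨V.1, V.2, tight_iff.mpr ⟨h1, h2⟩, h3⟩
    · rintro ⟨T', P', h1, h2⟩
      exact ⟨(T', P'), (tight_iff.mp h1).1, (tight_iff.mp h1).2, h2⟩
  · rw [defect_eq hV.2.1 hV.2.2, defect_eq (fd_le hV.2.1 inf_le_left) (fd_le hV.2.2 inf_le_left)]
    have h1 := conc_CP (T', P') hV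
    change Bs.LSys.dfc (A := ETSys L) (T', P') ≤ Bs.LSys.dfc (A := ETSys L) (T' ⊓ (CP L).1, P' ⊓ (CP L).2) at h1
    omega
  · rw [conj_iff]
    refine and_congr_right fun hf => ?_
    rw [defect_eq hf.1 hf.2]
    change Bs.LSys.dfc (A := ETSys L) (CP L) ≤ _ ↔ Bs.LSys.dfc (A := ETSys L) (CP L) - 1 ≤ _
    omega
  · rw [← base_iff]
    exact ⟨fun h => Prod.ext h.1 h.2, fun h => ⟨congrArg Prod.fst h, congrArg Prod.snd h⟩⟩
  · rw [alg_iff h2 h3]
    exact and_congr_right fun _ => ⟨fun h => ⟨congrArg Prod.fst h, congrArg Prod.snd h⟩, fun h => Prod.ext h.1 h.2⟩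

end Pool.Agent.Results.MP_8da9ea_nt.CanonicalPair
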