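import Pool.Agent.Q138.PS.WG
import Pool.Agent.Q138.AJ.R8da9ea

/-!
# The elliptico-toric conjecture at the points of number fields close to given points, for arbitrary analytic families

Consider `n` families over connected open sets `U_j` (lattices `Λ_z`, points `p_i(z)`, exponents `t_k(z)`, arbitrary analytic
functions of `z` with the independence conditions of `Family`). The elliptico-toric conjecture predicts that at a point `z` over a
number field `3 + 2 r + s` of the numbers `ω₁, ω₂, η₁, g₂, g₃`, `p_i, ℘(p_i), ζ(p_i)`, `t_k, exp(t_k)` are algebraically independent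
over `ℚ(π)` in general. For one fixed choice of `3 + 2 r_j + s_j` of these functions for each family, a tuple `x` of points of a
number field `k ⊂ ℂ` is exceptional (for `g`, `ξ ∈ ℂ^g`, `d`, `A`, `B` and `T`) if the numbers at `x_1, …, x_n` satisfy an
approximate relation (`≤ T ^ (-B)`) of degree at most `d` with coefficients `∑ ξ_i c_i`, `c_i` integers of `k` of size at most
`T ^ A`. We show that only the points `z` of a small set have exceptional tuples among their good approximations.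

* For compact sets `K` in all `U_j`, bounds `m` for the degree of the field, `g`, `d` and `A` for the relations, and `ε > 0` there is `B` such
  that for all `θ > 0`: outside a set of `z ∈ ℂ^n` of Hausdorff dimension at most `(2 m (n - 1) + ε) / θ`, for all number fields
  `k ⊂ ℂ` of degree at most `m`, all `ξ` from a given countable set and all large `T`, NO exceptional tuple of `k`, of height at
  most `T`, satisfies `|x_j - z_j| ≤ T ^ (-θ)` for all `j`. For `n = 1` the dimension is at most `ε / θ`.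
* Outside a set of Hausdorff dimension ZERO every `z` with all `z_i` in all `U_j` has the property that for all number fields `k ⊂ ℂ`, all
  `g` and `ξ` from the countable set, all `d` and `A` there are `B` and `θ` such that for all large `T` no exceptional tuple of `k`
  of height at most `T` satisfies `|x_j - z_j| ≤ T ^ (-θ)` for all `j`.
-/

set_option autoImplicit false

namespace Pool.Agent.Results.MP_8da9ea_nt.FamiliesNearGivenPoints

open Filter Pool.Agent.Q138.PS Pool.Agent.Q138.AJ.R8da9ea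

theorem mono {n g d : ℕ} {J : Fin n → Type} {v : ∀ j, ℂ → J j → ℂ} {F : Type} [Field F] [NumberField F] (ι : F →+* ℂ) (ξ : Fin g → ℂ)
    {K : Set ℂ} {A B T T' : ℝ} (h1 : max 1 (2 ^ max B 0) ≤ T) (h2 : T ≤ T') (h3 : T' ≤ 2 * T) :
    Exceptional n d v F ι ξ K A (max B 0 + 1) T ⊆ Exceptional n d v F ι ξ K (max A 0) B T' := by
  have h4 : 1 ≤ T := (le_max_left _ _).trans h1
  rintro x ⟨hx, P, hP, hc, s₀, hs, hv⟩
  refine ⟨fun j => ⟨(hx j).1, ?_⟩, P, hP, fun s => ?_, s₀, hs, hv.trans ?_⟩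
  · obtain ⟨a, b, hb, hab, he⟩ := (hx j).2
    exact ⟨a, b, hb, fun φ => ⟨(hab φ).1.trans h2, (hab φ).2.trans h2⟩, he⟩
  · obtain ⟨c, hc1, hc2⟩ := hc s
    exact ⟨c, fun i φ => (hc1 i φ).trans (num_coeff h4 h2), hc2⟩
  · exact mul_le_mul_of_nonneg_right (num_value h4 ((le_max_right _ _).trans h1) h2 h3) (norm_nonneg _)

/-- **Theorem.** -/
theorem result {n : ℕ} {r s : Fin n → ℕ} (U : Fin n → Set ℂ) (Λ : Fin n → ℂ → PeriodPair)
    (p : ∀ j, Fin (r j) → ℂ → ℂ) (t : ∀ j, Fin (s j) → ℂ → ℂ) (hU : ∀ j, Family (U j) (Λ j) (p j) (t j))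
    (X : Set ℂ) (hX : X.Countable) :
    ∃ e : ∀ j, Fin (3 + 2 * r j + s j) → Name (r j) (s j), (∀ j, Function.Injective (e j)) ∧
    (∀ (K : Set ℂ), IsCompact K → (∀ j, K ⊆ U j) → ∀ (m g d : ℕ) (A ε : ℝ), 0 < ε → ∃ B : ℝ, ∀ θ : ℝ, 0 < θ →
      ∃ Z : Set (Fin n → ℂ), dimH Z ≤ ENNReal.ofReal ((2 * m * (n - 1 : ℕ) + ε) / θ) ∧
      ∀ z, z ∉ Z → ∀ (k : IntermediateField ℚ ℂ) [NumberField k], Module.finrank ℚ k ≤ m →
        ∀ ξ : Fin g → ℂ, (∀ i, ξ i ∈ X) → ∀ᶠ T : ℝ in atTop,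
          ∀ x ∈ Exceptional n d (fun j z k => value (Λ j) (p j) (t j) z (e j k)) k (algebraMap k ℂ) ξ K A B T, ∃ j, T ^ (-θ) < ‖((x j : k) : ℂ) - z j‖) ∧
    ∃ Z : Set (Fin n → ℂ), dimH Z = 0 ∧ ∀ z, z ∉ Z → (∀ i j, z i ∈ U j) →
      ∀ (k : IntermediateField ℚ ℂ) [NumberField k] (g : ℕ) (ξ : Fin g → ℂ), (∀ i, ξ i ∈ X) → ∀ (d : ℕ) (A : ℝ),
        ∃ B θ : ℝ, 0 < θ ∧ ∀ᶠ T : ℝ in atTop,
          ∀ x ∈ Exceptional n d (fun j z k => value (Λ j) (p j) (t j) z (e j k)) k (algebraMap k ℂ) ξ Set.univ A B T, ∃ j, T ^ (-θ) < ‖((x j : k) : ℂ) - z j‖ := by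
  obtain ⟨e, he, hres⟩ := Pool.Agent.Q138.AJ.R8da9ea.result U Λ p t hU
  refine ⟨e, he, ?_⟩
  constructor
  · intro K hK hKU m g d A ε hε
    obtain ⟨B, C, T₀, hbd⟩ := hres K hK hKU m g d (max A 0) ε hε
    refine ⟨max B 0 + 1, fun θ hθ => ?_⟩
    exact near_all (Ξ := Fin g → ℂ) {ξ | ∀ i, ξ i ∈ X} (Set.countable_pi fun _ => hX)
      (fun F _ _ ι ξ T => Exceptional n d (fun j z k => value (Λ j) (p j) (t j) z (e j k)) F ι ξ K A (max B 0 + 1) T)
      (fun F _ _ ι ξ T => Exceptional n d (fun j z k => value (Λ j) (p j) (t j) z (e j k)) F ι ξ K (max A 0) B T) (fun F _ _ ι T => Points F ι K T)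
      (fun F _ _ ι T x hx => hx.2) C T₀ (max 1 (2 ^ max B 0)) ε θ hε hθ (fun F _ _ hF ι ξ T hT => hbd F hF ι ξ T hT)
      fun F _ _ ι ξ T T' h1 h2 h3 => mono ι ξ h1 h2 h3
  · have hcN := countN
    have hcX := hX.to_subtype
    let J : Type := {K : IntermediateField ℚ ℂ // NumberField K} × (Σ g : ℕ, Fin g → X) × ℕ × ℕ
    obtain ⟨Z, hZ, hz⟩ := near_open (fun j : Fin n => ⋂ i, U i) (fun _ => isOpen_iInter_of_finite fun i => (hU i).isOpen) (J := J) (fun i => i.1.1)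
      (fun i => algebraMap i.1.1 ℂ) (fun i B T => haveI := i.1.2
        Exceptional n i.2.2.1 (fun j z k => value (Λ j) (p j) (t j) z (e j k)) i.1.1 (algebraMap i.1.1 ℂ) (fun l => (i.2.1.2 l : ℂ)) Set.univ (i.2.2.2 : ℝ) B T) (by
        rintro ⟨⟨K, hK⟩, ⟨g, ξ⟩, d, A⟩ k
        obtain ⟨B, C, T₀, hbd⟩ := hres (inner (⋂ i, U i) k) (inner_compact _ k) (fun j => (inner_sub _ k).trans (Set.iInter_subset _ j))
          (Module.finrank ℚ K) g d (max (A : ℝ) 0) 1 one_pos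
        obtain ⟨c, hc⟩ := dimH_theta K (algebraMap K ℂ) (fun T => {s | s ∈ Exceptional n d (fun j z k => value (Λ j) (p j) (t j) z (e j k)) K (algebraMap K ℂ) (fun l => (ξ l : ℂ)) Set.univ (A : ℝ) (max B 0 + 1) T ∧
            ∀ j, algebraMap K ℂ (s j) ∈ inner (⋂ i, U i) k})
          (fun T => Exceptional n d (fun j z k => value (Λ j) (p j) (t j) z (e j k)) K (algebraMap K ℂ) (fun l => (ξ l : ℂ)) (inner (⋂ i, U i) k) (max (A : ℝ) 0) B T)
          (fun T => Points K (algebraMap K ℂ) (inner (⋂ i, U i) k) T) (fun T x hx => hx.2) C T₀ (max 1 (2 ^ max B 0))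
          (fun T hT => hbd K le_rfl _ _ T hT) (by
            intro T T' h1 h2 h3 t ht
            refine mono _ _ h1 h2 h3 ⟨fun j => ⟨ht.2 j, (ht.1.1 j).2⟩, ht.1.2⟩)
        exact ⟨max B 0 + 1, c, hc⟩)
    refine ⟨Z, hZ, fun z hzZ hzΩ K hK g ξ hξ d A => ?_⟩
    obtain ⟨B, θ, hθ, hbd⟩ := hz z hzZ (fun j => Set.mem_iInter.2 fun i => hzΩ j i) (⟨K, hK⟩, ⟨g, fun i => ⟨ξ i, hξ i⟩⟩, d, ⌈A⌉₊)
    refine ⟨B, θ, hθ, ?_⟩
    filter_upwards [hbd, eventually_ge_atTop 1] with T hT hT1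
    intro t ht
    refine hT t ?_
    obtain ⟨hp, P, hP, hc, hs⟩ := ht
    refine ⟨hp, P, hP, fun s => ?_, hs⟩
    obtain ⟨c, hc1, hc2⟩ := hc s
    exact ⟨c, fun i φ => (hc1 i φ).trans (Real.rpow_le_rpow_of_exponent_le hT1 (Nat.le_ceil A)), hc2⟩

end Pool.Agent.Results.MP_8da9ea_nt.FamiliesNearGivenPoints
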