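import Pool.Agent.Q246.NR2.Prop2
import Pool.Agent.Q246.NR2.EllLink

/-!
# The elliptico-toric conjecture at almost all tuples of algebraic points: a measure of algebraic independence over
# the periods

Let `L` be a lattice with rational invariants `g₂`, `g₃`, with periods `ω₁, ω₂` and quasi-periods `η₁, η₂`.  For algebraic
points, that is algebraic `e^(t_l)` and `℘(p_i)`, the conjecture says that the `s + 2 n` numbers `t_l`, `p_i`, `ζ(p_i)`
are algebraically independent over the field `ℚ(2πi, ω₁, ω₂, η₁, η₂)` (and that this field has transcendence degree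
`4 / [k : ℚ]`) if they are sufficiently general.

Let `p(α)` and `l(α)` be arbitrary fixed choices of the solutions of `℘(p(α)) = α`, `exp(l(α)) = α`, and `θ_1, …, θ_r`
distinct natural numbers.  We consider all the `3 k r` numbers `l(α_i + θ_j)`, `p(α_i + θ_j)`, `ζ(p(α_i + θ_j))` for the
`k`-tuples of algebraic integers `α_i` of degree at most `m` all of whose conjugates are at most `T` in absolute value;
so for `k = n + s` some of the `α_i` may be used for the points of the elliptic curve, and the others for the points of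
the multiplicative group.  There are `B` and `c > 0` such that, for all but a proportion `O(T ^ (-c))` of the tuples `α`,
the inequality `|P(…)| ≥ H ^ (-B)` holds for all nonzero integer polynomials `P` of degree at most `d` and height at most
`H` in these `3 k r` numbers,

* for all `H` in a long interval from `H₁` to `H₁ ^ exp (T ^ c)`, for any sufficiently large `H₁`;
* for a set of `H` of upper density at least `1 - T ^ (-c)` on the doubly logarithmic scale; in particular for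
  arbitrarily large `H`, with an exceptional set of tuples which does not depend on `H`;

and the same relative to arbitrary complex constants `ζ₁, ..., ζ_g`, in particular `2πi, ω₁, ω₂, η₁, η₂`, uniformly in
`ζ`: `|P(ζ, …)| ≥ H ^ (-B) |P_e(ζ)|` for all coefficients `P_e(ζ)` of `P(ζ, X)`.

The machine is that of helper246 (`Pool.Agent.Q246.NR`, `NR2`).
-/

set_option autoImplicit false

open scoped PeriodPair

namespace Pool.Agent.Results.MP_8da9ea_nt.MeasureAlmostAllTuples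

/-- The Weierstrass zeta function `ζ(z) = ∑ (1/(z-l) + 1/l + z/l²)`, the sum over the lattice (the summand of `l = 0` is
`1/z`, since `1/0 = 0` in Lean). -/
noncomputable def zeta (L : PeriodPair) (z : ℂ) : ℂ := ∑' l : L.lattice, (1 / (z - l) + 1 / l + z / l ^ 2)

/-- the algebraic integers of degree at most `m` all of whose conjugates have absolute value at most `T` -/
def Ints (m T : ℕ) : Set ℂ :=
  {α | IsIntegral ℤ α ∧ (minpoly ℚ α).natDegree ≤ m ∧ ∀ z : ℂ, Polynomial.aeval z (minpoly ℚ α) = 0 → ‖z‖ ≤ T}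

/-- `P = Σ P_e(Y) X ^ e` has degree at most `d` in `X`, its coefficients `P_e` have degree at most `d` in `Y`,
and the integer coefficients are at most `H` in absolute value -/
def Adm {σ : Type} {g : ℕ} (d : ℕ) (H : ℝ) (P : MvPolynomial σ (MvPolynomial (Fin g) ℤ)) : Prop :=
  P.totalDegree ≤ d ∧ ∀ e, (P.coeff e).totalDegree ≤ d ∧ ∀ f, |(((P.coeff e).coeff f : ℤ) : ℝ)| ≤ H

/-- the value `P(ζ, w)` -/
noncomputable def val {σ : Type} {g : ℕ} (ζ : Fin g → ℂ) (w : σ → ℂ) (P : MvPolynomial σ (MvPolynomial (Fin g) ℤ)) :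
    ℂ := MvPolynomial.eval₂ (MvPolynomial.aeval ζ).toRingHom w P

/-- the measure of algebraic independence of the numbers `w` for polynomials of degree at most `d` and height
at most `H`, also relative to the constants `ζ` -/
def Good {σ : Type} {g : ℕ} (d B : ℕ) (ζ : Fin g → ℂ) (w : σ → ℂ) (H : ℝ) : Prop :=
  (∀ P : MvPolynomial σ ℤ, P ≠ 0 → P.totalDegree ≤ d → (∀ e, |((P.coeff e : ℤ) : ℝ)| ≤ H) →
    1 ≤ H ^ B * ‖MvPolynomial.aeval w P‖) ∧
  ∀ P : MvPolynomial σ (MvPolynomial (Fin g) ℤ), Adm d H P →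
    ∀ e, ‖MvPolynomial.aeval ζ (P.coeff e)‖ ≤ H ^ B * ‖val ζ w P‖

/-- the `3 k r` numbers `l(α_i + θ_j)`, `p(α_i + θ_j)`, `ζ(p(α_i + θ_j))` -/
noncomputable def numbers (L : PeriodPair) (p l : ℂ → ℂ) {k r : ℕ} (θ : Fin r → ℕ) (α : Fin k → ℂ)
    (q : (Fin k × Fin r) × Fin 3) : ℂ :=
  ![l (α q.1.1 + θ q.1.2), p (α q.1.1 + θ q.1.2), zeta L (p (α q.1.1 + θ q.1.2))] q.2

/-- Let `L` be a lattice with rational invariants, let `p(α)` be any solution of `℘(p(α)) = α`, and `l(α)` any logarithm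
of `α`.  For all `k`, `g`, `d`, `m ≥ 1` and distinct `θ_1, …, θ_r ∈ ℕ` there are `B`, `C` and `c > 0` such that for all
`T ≥ 1`: for all but a proportion `C T ^ (-c)` of the tuples `α` of elements of `Ints m T` the measure with exponent `B`
holds for the numbers `l(α_i + θ_j)`, `p(α_i + θ_j)`, `ζ(p(α_i + θ_j))` for all `H` with `H₁ ≤ H ≤ H₁ ^ exp (T ^ c)`, for
each large `H₁`; and, with one exceptional set for all `H`, for a set of `H` of upper density at least `1 - T ^ (-c)` on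
the doubly logarithmic scale; also relative to arbitrary constants. -/
theorem result (L : PeriodPair) (a b : ℚ) (ha : L.g₂ = a) (hb : L.g₃ = b) (p l : ℂ → ℂ)
    (hp : ∀ α, p α ∉ L.lattice ∧ ℘[L] (p α) = α) (hl : ∀ α, α ≠ 0 → Complex.exp (l α) = α) (k g d m : ℕ) (hm : 1 ≤ m)
    {r : ℕ} (θ : Fin r → ℕ) (hθ : Function.Injective θ) :
    ∃ (B : ℕ) (C c : ℝ), 0 < c ∧ ∀ T : ℕ, 1 ≤ T →
    (∃ H₀ : ℝ, ∀ H₁ : ℝ, H₀ ≤ H₁ → ∀ ζ : Fin g → ℂ,
      (({α : Fin k → ℂ | (∀ i, α i ∈ Ints m T) ∧ ¬ ∀ H : ℝ, H₁ ≤ H → H ≤ H₁ ^ Real.exp ((T : ℝ) ^ c) →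
        Good d B ζ (numbers L p l θ α) H}.ncard : ℕ) : ℝ) ≤
          C * (T : ℝ) ^ (-c) * (((Ints m T).ncard : ℕ) : ℝ) ^ k) ∧
    ∀ ζ : Fin g → ℂ, (({α : Fin k → ℂ | (∀ i, α i ∈ Ints m T) ∧ ¬ ∀ N₀ : ℕ, ∃ N, N₀ ≤ N ∧
      (({j : ℕ | j < N ∧ ¬ ∀ H : ℝ, 2 ^ (2 ^ j) ≤ H → H ≤ 2 ^ (2 ^ (j + 1)) →
        Good d B ζ (numbers L p l θ α) H}.ncard : ℕ) : ℝ) ≤ (T : ℝ) ^ (-c) * N}.ncard : ℕ) : ℝ) ≤
          C * (T : ℝ) ^ (-c) * (((Ints m T).ncard : ℕ) : ℝ) ^ k := by
  classical
  obtain ⟨G, hG, hwin⟩ := Pool.Agent.Q246.NR2.win_ell a b L ha hb p l hl m θ hθ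
  refine Pool.Agent.Q246.NR2.masterAll m hm _ _ (fun z j => hp _) (G : ℤ) (by exact_mod_cast (by omega : G ≠ 0)) hwin k g d
    (fun B ζ α H => Good d B ζ (numbers L p l θ α) H) (fun B ζ α H h => ?_)
  have hinj : Function.Injective (fun q : (Fin k × Fin r) × Fin 3 =>
      ((q.1.1, (q.1.2, (Pool.Agent.Y916.Sl.fe a b).symm ((![2, 0, 1] : Fin 3 → Fin 3) q.2))) :
        Fin k × (Fin r × Pool.Agent.Y916.Sa.Tau (Pool.Agent.Y916.Sl.me a b)))) := by
    rintro ⟨⟨i, j⟩, q⟩ ⟨⟨i', j'⟩, q'⟩ h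
    simp only [Prod.mk.injEq, EmbeddingLike.apply_eq_iff_eq] at h
    obtain ⟨rfl, rfl, h3⟩ := h
    have h4 : q = q' := by
      revert h3
      fin_cases q <;> fin_cases q' <;> simp
    rw [h4]
  have h1 := h.rename _ hinj
  have h2 : (fun q : (Fin k × Fin r) × Fin 3 => Pool.Agent.Q246.NR2.yE a b L p l (α q.1.1 + θ q.1.2)
      ((Pool.Agent.Y916.Sl.fe a b).symm ((![2, 0, 1] : Fin 3 → Fin 3) q.2))) = numbers L p l θ α := by
    funext q
    rw [Pool.Agent.Q246.NR2.yE, Equiv.apply_symm_apply]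
    obtain ⟨q1, q2⟩ := q
    fin_cases q2 <;> rfl
  rw [← h2]
  exact h1

end Pool.Agent.Results.MP_8da9ea_nt.MeasureAlmostAllTuples
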