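import Mathlib
import Pool.Agent.Q88.ETO.C

/-!
# The elliptico-toric conjecture is a statement about single spaces

`L` is a pair of periods `ω₁, ω₂` (independent over `ℝ`), `L.lattice = ℤ ω₁ + ℤ ω₂ = Ω`, and
`℘[L]`, `L.g₂`, `L.g₃` are Mathlib's Weierstrass function and invariants. The definitions of
`ζ`, `k L` (the field `ℚ ⊗ End(ℂ / Ω)`), `trd ℚ` (transcendence degree of the field generated by a
set) and `Conjecture L` (the conjecture for the lattice `Ω` and all tuples `t` and `p`) are in
`Pool.Agent.Y776.EtDefs`.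

The conjecture has two groups of variables, `t₁, …, t_s` with their exponentials and `p₁, …, p_n`
with their images on the elliptic curve. We prove that it is equivalent to the inequality

`trdeg ℚ(g₂, g₃, v, e^v, ℘(v), ζ(v) : v ∈ V) ≥ dim_ℚ V + 2 dim_k V - 1`   (*)

for single finite dimensional spaces `V` of complex numbers (`℘` and `ζ` are only taken outside `Ω`).

1. For a fixed lattice one may take for `V` the spaces over any number field `K ⊇ k` which contain
   `2πi, ω₁, ω₂` and any prescribed finite set `S` of closed form numbers (see `ClosedForm`; they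
   include the algebraic numbers, the periods and quasi-periods, exponentials, logarithms and
   elliptic logarithms of closed form numbers, etc.) and whose dimension over `K` belongs to any
   prescribed infinite set `D`.
2. If the lattice is stable under complex conjugation, and so are `K` and `S`, then the spaces `V`
   stable under conjugation are enough.
3. The conjecture for all lattices is equivalent to (*) for the lattices with `ω₁ = 2πi` only.

The proof uses the predimension `trdeg - dim T - 2 dim P` of a pair of spaces. It does not increase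
if one adds to `T` (to `P`) a number `x` for which `x, e^x` (for which `x, ℘(x), ζ(x)`) are
algebraically dependent over the field of the pair, for example the elements of `P` (of `T`); it is
submodular; and the numbers of the lattice `c Ω` with `c = 2πi / ω₁` are algebraic over the
numbers of `Ω`.
-/

set_option autoImplicit false

open Module
open scoped PeriodPair ComplexConjugate

namespace Pool.Agent.Results.MP_8da9ea_nt.OneSpaceForm

open Pool.Agent.Y776.Et (ζ k trd Conjecture)

/-- the numbers `g₂`, `g₃`, `v`, `e^v`, `ζ(v)`, `℘(v)` with `v` in `V` (`ζ(v)` and `℘(v)` only for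
`v` outside the lattice) -/
def Num (L : PeriodPair) (V : Set ℂ) : Set ℂ :=
  {L.g₂, L.g₃} ∪ ((V ∪ Complex.exp '' V) ∪
    (ζ L '' (V \ (L.lattice : Set ℂ)) ∪ ℘[L] '' (V \ (L.lattice : Set ℂ))))

/-- The smallest set of complex numbers which contains `x` as soon as, for some finite subset `F`
of it and the field `E` generated by the periods, `g₂`, `g₃` and by `v`, `e^v`, `ζ(v)`, `℘(v)` with
`v` in `F`: `x` is algebraic over `E`, or `e^x` or `℘(x)` is algebraic over `E(x)`, or `ζ(x)` is
algebraic over `E(x, ℘(x))`. -/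
inductive ClosedForm (L : PeriodPair) : ℂ → Prop
  | intro (F : Finset ℂ) (x : ℂ) (hF : ∀ y ∈ F, ClosedForm L y)
      (hx : IsAlgebraic (IntermediateField.adjoin ℚ ({L.ω₁, L.ω₂} ∪ Num L F)) x ∨
        IsAlgebraic (IntermediateField.adjoin ℚ (insert x ({L.ω₁, L.ω₂} ∪ Num L F)))
          (Complex.exp x) ∨
        IsAlgebraic (IntermediateField.adjoin ℚ (insert x ({L.ω₁, L.ω₂} ∪ Num L F)))
          (℘[L] x) ∨
        IsAlgebraic (IntermediateField.adjoin ℚ
          (insert x (insert (℘[L] x) ({L.ω₁, L.ω₂} ∪ Num L F)))) (ζ L x)) : ClosedForm L x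

/-- `V` is a finite dimensional space over `K` which contains `2πi`, the periods and `S`, and
`dim_K V ∈ D`. -/
def Admissible (L : PeriodPair) {K : IntermediateField ℚ ℂ} (S : Finset ℂ) (D : Set ℕ)
    (V : Submodule K ℂ) : Prop :=
  FiniteDimensional K V ∧ finrank K V ∈ D ∧ (S : Set ℂ) ⊆ V ∧
    (2 * Real.pi * Complex.I : ℂ) ∈ V ∧ L.ω₁ ∈ V ∧ L.ω₂ ∈ V

/-- The inequality (*): `dim_ℚ V + 2 dim_k V ≤ trdeg ℚ(Num L V) + 1`, where
`dim_ℚ V = [K : ℚ] dim_K V` and `dim_k V = dim_ℚ V / [k : ℚ]`. -/
def Ineq (L : PeriodPair) {K : IntermediateField ℚ ℂ} (V : Submodule K ℂ) : Prop :=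
  ((finrank ℚ K * finrank K V + 2 * (finrank ℚ K * finrank K V / finrank ℚ (k L)) : ℕ) :
    Cardinal) ≤ trd ℚ (Num L V) + 1

theorem closedForm (L : PeriodPair) {x : ℂ} (h : ClosedForm L x) : Q88.ETO.ClosedForm L x := by
  induction h with
  | intro F x _ hx ih => exact Q88.ETO.ClosedForm.intro F x ih hx

/-- **Main result.** -/
theorem result :
    -- one lattice
    (∀ (L : PeriodPair) (K : IntermediateField ℚ ℂ), FiniteDimensional ℚ K → k L ≤ K →
      ∀ S : Finset ℂ, (∀ x ∈ S, ClosedForm L x) → ∀ D : Set ℕ, D.Infinite →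
      (Conjecture L ↔ ∀ V : Submodule K ℂ, Admissible L S D V → Ineq L V)) ∧
    -- one lattice stable under complex conjugation
    (∀ L : PeriodPair, (∀ w ∈ L.lattice, conj w ∈ L.lattice) →
      ∀ K : IntermediateField ℚ ℂ, FiniteDimensional ℚ K → k L ≤ K → (∀ a ∈ K, conj a ∈ K) →
      ∀ S : Finset ℂ, (∀ x ∈ S, ClosedForm L x) → (∀ x ∈ S, conj x ∈ S) →
      ∀ D : Set ℕ, D.Infinite →
      (Conjecture L ↔ ∀ V : Submodule K ℂ, Admissible L S D V → (∀ x ∈ V, conj x ∈ V) →
        Ineq L V)) ∧
    -- all lattices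
    (∀ K : PeriodPair → IntermediateField ℚ ℂ, (∀ L, FiniteDimensional ℚ (K L)) →
      (∀ L, k L ≤ K L) → ∀ S : PeriodPair → Finset ℂ, (∀ L, ∀ x ∈ S L, ClosedForm L x) →
      ∀ D : PeriodPair → Set ℕ, (∀ L, (D L).Infinite) →
      ((∀ L, Conjecture L) ↔ ∀ L : PeriodPair, L.ω₁ = 2 * Real.pi * Complex.I →
        ∀ V : Submodule (K L) ℂ, Admissible L (S L) (D L) V → Ineq L V)) := by
  refine ⟨fun L K hf hK S hS D hD => ?_, fun L hL K hf hK hc S hS hSc D hD => ?_,
    fun K hf hK S hS D hD => ?_⟩
  · rw [Q88.ETO.main₁ hK S (fun x hx => closedForm L (hS x hx)) D hD]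
    constructor
    · rintro h V ⟨h1, h2, h3, h4, h5, h6⟩
      exact h V h1 h2 h3 h4 h5 h6
    · intro h V h1 h2 h3 h4 h5 h6
      exact h V ⟨h1, h2, h3, h4, h5, h6⟩
  · rw [Q88.ETO.main₂ hK hL hc S (fun x hx => closedForm L (hS x hx)) hSc D hD]
    constructor
    · rintro h V ⟨h1, h2, h3, h4, h5, h6⟩ h7
      exact h V h1 h2 h3 h4 h5 h6 h7
    · intro h V h1 h2 h3 h4 h5 h6 h7
      exact h V ⟨h1, h2, h3, h4, h5, h6⟩ h7
  · rw [Q88.ETO.main₃ K hf hK S (fun L x hx => closedForm L (hS L x hx)) D hD]
    constructor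
    · rintro h L hL V ⟨h1, h2, h3, h4, h5, h6⟩
      exact h L hL V h1 h2 h3 h5 h6
    · intro h L hL V h1 h2 h3 h5 h6
      exact h L hL V ⟨h1, h2, h3, hL ▸ h5, h5, h6⟩

end Pool.Agent.Results.MP_8da9ea_nt.OneSpaceForm
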